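import Pool.Agent.Helper52.Bent.Walsh

set_option autoImplicit false

namespace Pool.Agent.Helper52.BentA

/-- Lemma (A) of helper70's plan (the hypothesis `hinv` is not needed). -/
theorem bent_of_mm {n : ℕ} (f : (Fin n → ZMod 2) → ZMod 2)
    (C : AddSubgroup (Fin n → ZMod 2))
    (π : (Fin n → ZMod 2) → (Fin n → ZMod 2) → ZMod 2)
    (hadd : ∀ x, ∀ c ∈ C, f (x + c) = f x + π x c)
    (hlin : ∀ x, ∀ c ∈ C, ∀ c' ∈ C, π x (c + c') = π x c + π x c')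
    (_hinv : ∀ x, ∀ c ∈ C, ∀ c' ∈ C, π (x + c') c = π x c)
    (hinj : ∀ x y, (∀ c ∈ C, π x c = π y c) → x - y ∈ C)
    (hcard : Nat.card C ^ 2 = 2 ^ n) (a : Fin n → ZMod 2) :
    (∑ x : Fin n → ZMod 2, (-1 : ℤ) ^ (f x + ∑ i, a i * x i).val) ^ 2 = (2 : ℤ) ^ n :=
  Pool.Agent.Helper52.Bent.bent_of_slopes f C hcard π hadd hlin hinj a

end Pool.Agent.Helper52.BentA
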