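import Mathlib
import Pool.Agent.Helper70.Bent.Forms

set_option autoImplicit false

/-!
Injectivity statements for the slopes of helper70's bent function (MP_b38f68, S10912).
-/

namespace Pool.Agent.Helper52.BentC

variable {L : Type*} [Field L] [CharP L 2]

/-- The cubic form of the first block, in powers. -/
def FF (P Q : L) : L :=
  P ^ 2 * P ^ 8 * P ^ 64 + P ^ 2 * Q ^ 8 * Q ^ 64 + Q ^ 2 * P ^ 8 * Q ^ 64
    + Q ^ 2 * Q ^ 8 * P ^ 64 + Q ^ 2 * P ^ 8 * P ^ 64

lemma pow_one_add_511 {R : Type*} [CommMonoid R] {y : R} (hy : y ^ 512 = y) (t : ℕ) :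
    y ^ (1 + 511 * t) = y := by
  induction t with
  | zero => simp
  | succ t ih =>
    have : 1 + 511 * (t + 1) = (1 + 511 * t) + 511 := by ring
    rw [this, pow_add, ih, ← pow_succ', hy]

/-- `y ↦ y^68` is injective on `{y^512 = y}`. -/
lemma pow68_inj {R : Type*} [CommMonoid R] {y z : R} (hy : y ^ 512 = y) (hz : z ^ 512 = z)
    (h : y ^ 68 = z ^ 68) : y = z := by
  have e : 68 * 248 = 1 + 511 * 33 := by norm_num
  rw [← pow_one_add_511 hy 33, ← pow_one_add_511 hz 33, ← e, pow_mul, pow_mul, h]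

/-- `y ↦ y^17` is injective on `{y^512 = y}`. -/
lemma pow17_inj {R : Type*} [CommMonoid R] {y z : R} (hy : y ^ 512 = y) (hz : z ^ 512 = z)
    (h : y ^ 17 = z ^ 17) : y = z := by
  have e : 17 * 481 = 1 + 511 * 16 := by norm_num
  rw [← pow_one_add_511 hy 16, ← pow_one_add_511 hz 16, ← e, pow_mul, pow_mul, h]

lemma pow_one_add_262143 {R : Type*} [CommMonoid R] {y : R} (hy : y ^ 262144 = y) (t : ℕ) :
    y ^ (1 + 262143 * t) = y := by
  induction t with
  | zero => simp
  | succ t ih =>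
    have : 1 + 262143 * (t + 1) = (1 + 262143 * t) + 262143 := by ring
    rw [this, pow_add, ih, ← pow_succ', hy]

omit [CharP L 2] in
/-- `u ↦ u^4162` is injective on `{u^(2^18) = u}`. -/
lemma pow4162_inj {u v : L} (hu : u ^ 262144 = u) (hv : v ^ 262144 = v)
    (h : u ^ 4162 = v ^ 4162) : u = v := by
  have e : 4162 * 195568 = 1 + 262143 * 3105 := by norm_num
  rw [← pow_one_add_262143 hu 3105, ← pow_one_add_262143 hv 3105, ← e, pow_mul,
    pow_mul, h]

lemma frob_add (x y : L) (k : ℕ) : (x + y) ^ (2 ^ k) = x ^ (2 ^ k) + y ^ (2 ^ k) :=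
  add_pow_char_pow x y 2 k

/-- The identity `u^4162 = F(P,Q) + w F(Q,P)` for `u = P + w Q`, `w^2 = w + 1`. -/
lemma pow4162_eq {w : L} (hw : w ^ 2 = w + 1) {P Q : L}
    (hP : P ^ 512 = P) (hQ : Q ^ 512 = Q) :
    (P + w * Q) ^ 4162 = FF P Q + w * FF Q P := by
  have h2 : (2 : L) = 0 := CharTwo.two_eq_zero
  have hw3 : w ^ 3 = 1 := by
    have : w ^ 3 = w ^ 2 * w := by ring
    rw [this, hw, add_mul, ← pow_two, hw]
    linear_combination (w) * h2
  have hw64 : w ^ 64 = w := by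
    have : w ^ 64 = (w ^ 3) ^ 21 * w := by ring
    rw [this, hw3, one_pow, one_mul]
  have hw4096 : w ^ 4096 = w := by
    have : w ^ 4096 = (w ^ 64) ^ 64 := by ring
    rw [this, hw64, hw64]
  have e1 : (P + w * Q) ^ 2 = P ^ 2 + (w + 1) * Q ^ 2 := by
    have := frob_add P (w * Q) 1
    norm_num at this
    rw [this, mul_pow, hw]
  have e2 : (P + w * Q) ^ 64 = P ^ 64 + w * Q ^ 64 := by
    have := frob_add P (w * Q) 6
    norm_num at this
    rw [this, mul_pow, hw64]
  have e3 : (P + w * Q) ^ 4096 = P ^ 8 + w * Q ^ 8 := by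
    have := frob_add P (w * Q) 12
    norm_num at this
    rw [this, mul_pow, hw4096]
    have hP8 : P ^ 4096 = P ^ 8 := by
      have : P ^ 4096 = (P ^ 512) ^ 8 := by ring
      rw [this, hP]
    have hQ8 : Q ^ 4096 = Q ^ 8 := by
      have : Q ^ 4096 = (Q ^ 512) ^ 8 := by ring
      rw [this, hQ]
    rw [hP8, hQ8]
  have e : (P + w * Q) ^ 4162 = (P + w * Q) ^ 2 * (P + w * Q) ^ 4096 * (P + w * Q) ^ 64 := by
    rw [← pow_add, ← pow_add]
  rw [e, e1, e2, e3]
  unfold FF
  -- expand, using w^2 = w + 1 and char 2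
  have key : ∀ p2 p8 p64 q2 q8 q64 : L,
      (p2 + (w + 1) * q2) * (p8 + w * q8) * (p64 + w * q64) =
      (p2 * p8 * p64 + p2 * q8 * q64 + q2 * p8 * q64 + q2 * q8 * p64 + q2 * p8 * p64) +
      w * (q2 * q8 * q64 + q2 * p8 * p64 + p2 * q8 * p64 + p2 * p8 * q64 + p2 * q8 * q64) := by
    intro p2 p8 p64 q2 q8 q64
    linear_combination (p2 * (q8 * q64) + q2 * (p8 * q64 + q8 * p64)
      + q2 * (q8 * q64) * (w + 2)) * hw
      + (q2 * (q8 * q64) + w * (q2 * (p8 * q64 + q8 * p64) + q2 * (q8 * q64))) * h2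
  rw [key]

lemma w3 {w : L} (hw : w ^ 2 = w + 1) : w ^ 3 = 1 := by
  have h2' : (2 : L) = 0 := CharTwo.two_eq_zero
  have : w ^ 3 = w ^ 2 * w := by ring
  rw [this, hw, add_mul, ← pow_two, hw]
  linear_combination (w) * h2'

lemma w512 {w : L} (hw : w ^ 2 = w + 1) : w ^ 512 = w + 1 := by
  have : w ^ 512 = (w ^ 3) ^ 170 * w ^ 2 := by ring
  rw [this, w3 hw, one_pow, one_mul, hw]

lemma u512 {w : L} (hw : w ^ 2 = w + 1) {a b : L} (ha : a ^ 512 = a) (hb : b ^ 512 = b) :
    (a + w * b) ^ 512 = a + (w + 1) * b := by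
  have := frob_add a (w * b) 9
  norm_num at this
  rw [this, mul_pow, w512 hw, ha, hb]

lemma u262144 {w : L} (hw : w ^ 2 = w + 1) {a b : L} (ha : a ^ 512 = a) (hb : b ^ 512 = b) :
    (a + w * b) ^ 262144 = a + w * b := by
  have h2' : (2 : L) = 0 := CharTwo.two_eq_zero
  have e : (a + w * b) ^ 262144 = ((a + w * b) ^ 512) ^ 512 := by
    rw [← pow_mul]
  have e2 : a + (w + 1) * b = (a + b) + w * b := by ring
  have hab : (a + b) ^ 512 = a + b := by
    have := frob_add a b 9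
    norm_num at this
    rw [this, ha, hb]
  rw [e, u512 hw ha hb, e2, u512 hw hab hb]
  linear_combination b * h2'

/-- The first block: the pair `(F(P,Q), F(Q,P))` determines `(P,Q)`. -/
theorem FF_inj {w : L} (hw : w ^ 2 = w + 1) {P Q P' Q' : L}
    (hP : P ^ 512 = P) (hQ : Q ^ 512 = Q) (hP' : P' ^ 512 = P') (hQ' : Q' ^ 512 = Q')
    (h1 : FF P Q = FF P' Q') (h2 : FF Q P = FF Q' P') : P = P' ∧ Q = Q' := by
  have e1 := pow4162_eq hw hP hQ
  have e2 := pow4162_eq hw hP' hQ'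
  rw [h1, h2, ← e2] at e1
  have e3 := pow4162_inj (u262144 hw hP hQ) (u262144 hw hP' hQ') e1
  have e5 : P + (w + 1) * Q = P' + (w + 1) * Q' := by
    rw [← u512 hw hP hQ, ← u512 hw hP' hQ', e3]
  have hQQ : Q = Q' := by linear_combination e5 - e3
  refine ⟨?_, hQQ⟩
  rw [hQQ] at e3
  exact add_right_cancel e3

/-- The same over a field `K` in which `w ^ 512 = w` for all `w`. -/
theorem FF_inj_K {K : Type*} [Field K] [CharP K 2] (hK : ∀ w : K, w ^ 512 = w) {P Q P' Q' : K}
    (h1 : FF P Q = FF P' Q') (h2 : FF Q P = FF Q' P') : P = P' ∧ Q = Q' := by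
  have : CharP (AlgebraicClosure K) 2 :=
    charP_of_injective_algebraMap (algebraMap K (AlgebraicClosure K)).injective 2
  obtain ⟨w, hw⟩ : ∃ w : AlgebraicClosure K, w ^ 2 = w + 1 := by
    have hdeg : (Polynomial.X ^ 2 + Polynomial.X + 1 :
        Polynomial (AlgebraicClosure K)).degree ≠ 0 := by
      have : (Polynomial.X ^ 2 + Polynomial.X + 1 :
        Polynomial (AlgebraicClosure K)).degree = 2 := by compute_degree!
      rw [this]
      decide
    obtain ⟨w, hw⟩ := IsAlgClosed.exists_root _ hdeg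
    refine ⟨w, ?_⟩
    have h2' : (2 : AlgebraicClosure K) = 0 := CharTwo.two_eq_zero
    have hw' : w ^ 2 + w + 1 = 0 := by
      simpa [Polynomial.IsRoot] using hw
    linear_combination hw' - (w + 1) * h2'
  have hF : ∀ a b : K, algebraMap K (AlgebraicClosure K) (FF a b) =
      FF (algebraMap K (AlgebraicClosure K) a) (algebraMap K (AlgebraicClosure K) b) := by
    intro a b
    simp only [FF, map_add, map_mul, map_pow]
  have hc : ∀ a : K, (algebraMap K (AlgebraicClosure K) a) ^ 512 =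
      algebraMap K (AlgebraicClosure K) a := by
    intro a
    rw [← map_pow, hK]
  have h := FF_inj (L := AlgebraicClosure K) hw (hc P) (hc Q) (hc P') (hc Q')
    (by rw [← hF, ← hF, h1]) (by rw [← hF, ← hF, h2])
  exact ⟨(algebraMap K (AlgebraicClosure K)).injective h.1,
    (algebraMap K (AlgebraicClosure K)).injective h.2⟩

open Pool.Agent.Helper70.Bent

/-- The slopes separate the cosets of `C z`. -/
theorem slope_inj {K : Type*} [Field K] [Algebra (ZMod 2) K] (hK : ∀ w : K, w ^ 512 = w)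
    (T : K →+ ZMod 2) (hnd : ∀ a : K, (∀ b, T (b * a) = 0) → a = 0)
    (z : K) (hz : z ^ 73 = 1)
    (hsurj : ∀ (s : ZMod 2) (a : Fin 8 → K), ∃ c ∈ C z, sP c = s ∧ P z 72 c = a 0 ∧
      Q z 72 c = a 1 ∧ P z 25 c = a 2 ∧ Q z 25 c = a 3 ∧ P z 3 c = a 4 ∧ Q z 3 c = a 5 ∧
      P z 58 c = a 6 ∧ Q z 58 c = a 7) :
    ∀ x y : V, (∀ c ∈ C z, π T z x c = π T z y c) → x - y ∈ C z := by
  intro x y h
  have hchar : CharP K 2 := charK K
  -- the eight slopes
  have key : ∀ (s : ZMod 2) (a : Fin 8 → K),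
      s * (1 + sP x + sQ x + T (P z 5 x * P z 68 x) + T (Q z 5 x * Q z 68 x))
      + T (a 0 * F (QQ z x) (PP z x)) + T (a 1 * F (PP z x) (QQ z x))
      + T (a 3 * (P z 20 x * P z 28 x + P z 16 x * P z 32 x))
      + T (a 2 * (Q z 20 x * Q z 28 x + Q z 16 x * Q z 32 x))
      + T (a 5 * (P z 17 x * P z 53 x + P z 14 x * P z 56 x))
      + T (a 4 * (Q z 17 x * Q z 53 x + Q z 14 x * Q z 56 x))
      + T (a 7 * (P z 15 x + P z 5 x * P z 10 x))
      + T (a 6 * (Q z 15 x + Q z 5 x * Q z 10 x)) =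
      s * (1 + sP y + sQ y + T (P z 5 y * P z 68 y) + T (Q z 5 y * Q z 68 y))
      + T (a 0 * F (QQ z y) (PP z y)) + T (a 1 * F (PP z y) (QQ z y))
      + T (a 3 * (P z 20 y * P z 28 y + P z 16 y * P z 32 y))
      + T (a 2 * (Q z 20 y * Q z 28 y + Q z 16 y * Q z 32 y))
      + T (a 5 * (P z 17 y * P z 53 y + P z 14 y * P z 56 y))
      + T (a 4 * (Q z 17 y * Q z 53 y + Q z 14 y * Q z 56 y))
      + T (a 7 * (P z 15 y + P z 5 y * P z 10 y))
      + T (a 6 * (Q z 15 y + Q z 5 y * Q z 10 y)) := by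
    intro s a
    obtain ⟨c, hc, h0, h1, h2, h3, h4, h5, h6, h7, h8⟩ := hsurj s a
    have := h c hc
    simp only [π, h0, h1, h2, h3, h4, h5, h6, h7, h8] at this
    exact this
  have nd : ∀ g g' : K, (∀ b : K, T (b * g) = T (b * g')) → g = g' := by
    intro g g' hg
    have : g - g' = 0 := by
      refine hnd _ fun b => ?_
      rw [mul_sub, map_sub, hg b, sub_self]
    exact sub_eq_zero.mp this
  have k0 : F (QQ z x) (PP z x) = F (QQ z y) (PP z y) := by
    refine nd _ _ fun b => ?_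
    have := key 0 (fun i => if i = 0 then b else 0)
    simpa using this
  have k1 : F (PP z x) (QQ z x) = F (PP z y) (QQ z y) := by
    refine nd _ _ fun b => ?_
    have := key 0 (fun i => if i = 1 then b else 0)
    simpa using this
  have k3 : P z 20 x * P z 28 x + P z 16 x * P z 32 x =
      P z 20 y * P z 28 y + P z 16 y * P z 32 y := by
    refine nd _ _ fun b => ?_
    have := key 0 (fun i => if i = 3 then b else 0)
    simpa using this
  have k2 : Q z 20 x * Q z 28 x + Q z 16 x * Q z 32 x =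
      Q z 20 y * Q z 28 y + Q z 16 y * Q z 32 y := by
    refine nd _ _ fun b => ?_
    have := key 0 (fun i => if i = 2 then b else 0)
    simpa using this
  have k5 : P z 17 x * P z 53 x + P z 14 x * P z 56 x =
      P z 17 y * P z 53 y + P z 14 y * P z 56 y := by
    refine nd _ _ fun b => ?_
    have := key 0 (fun i => if i = 5 then b else 0)
    simpa using this
  have k4 : Q z 17 x * Q z 53 x + Q z 14 x * Q z 56 x =
      Q z 17 y * Q z 53 y + Q z 14 y * Q z 56 y := by
    refine nd _ _ fun b => ?_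
    have := key 0 (fun i => if i = 4 then b else 0)
    simpa using this
  have k7 : P z 15 x + P z 5 x * P z 10 x = P z 15 y + P z 5 y * P z 10 y := by
    refine nd _ _ fun b => ?_
    have := key 0 (fun i => if i = 7 then b else 0)
    simpa using this
  have k6 : Q z 15 x + Q z 5 x * Q z 10 x = Q z 15 y + Q z 5 y * Q z 10 y := by
    refine nd _ _ fun b => ?_
    have := key 0 (fun i => if i = 6 then b else 0)
    simpa using this
  have ks := key 1 (fun _ => 0)
  simp only [zero_mul, map_zero, add_zero, one_mul] at ks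
  -- Frobenius
  have hPP : ∀ v : V, ∀ k j l : ℕ, k * 2 ^ j % 73 = l % 73 → P z l v = P z k v ^ (2 ^ j) :=
    fun v k j l hh => P_pow z hz k j l hh v
  have hQQ : ∀ v : V, ∀ k j l : ℕ, k * 2 ^ j % 73 = l % 73 → Q z l v = Q z k v ^ (2 ^ j) :=
    fun v k j l hh => Q_pow z hz k j l hh v
  have hFF : ∀ v : V, F (PP z v) (QQ z v) = FF (P z 1 v) (Q z 1 v) := by
    intro v
    simp only [F, FF, PP, QQ]
    rw [hPP v 1 1 2 (by norm_num), hPP v 1 3 8 (by norm_num), hPP v 1 6 64 (by norm_num),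
      hQQ v 1 1 2 (by norm_num), hQQ v 1 3 8 (by norm_num), hQQ v 1 6 64 (by norm_num)]
    norm_num
  have hFF' : ∀ v : V, F (QQ z v) (PP z v) = FF (Q z 1 v) (P z 1 v) := by
    intro v
    simp only [F, FF, PP, QQ]
    rw [hPP v 1 1 2 (by norm_num), hPP v 1 3 8 (by norm_num), hPP v 1 6 64 (by norm_num),
      hQQ v 1 1 2 (by norm_num), hQQ v 1 3 8 (by norm_num), hQQ v 1 6 64 (by norm_num)]
    norm_num
  rw [hFF, hFF] at k1
  rw [hFF', hFF'] at k0
  obtain ⟨hP1, hQ1⟩ := FF_inj_K hK k1 k0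
  -- P_5, Q_5
  have hP5 : P z 5 x = P z 5 y := by
    refine pow68_inj (hK _) (hK _) ?_
    rw [hPP x 1 4 16 (by norm_num), hPP x 1 5 32 (by norm_num), hPP y 1 4 16 (by norm_num),
      hPP y 1 5 32 (by norm_num), hP1] at k3
    have k3' := add_right_cancel k3
    rw [hPP x 5 2 20 (by norm_num), hPP x 5 6 28 (by norm_num), hPP y 5 2 20 (by norm_num),
      hPP y 5 6 28 (by norm_num), ← pow_add, ← pow_add] at k3'
    exact k3'
  have hQ5 : Q z 5 x = Q z 5 y := by
    refine pow68_inj (hK _) (hK _) ?_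
    rw [hQQ x 1 4 16 (by norm_num), hQQ x 1 5 32 (by norm_num), hQQ y 1 4 16 (by norm_num),
      hQQ y 1 5 32 (by norm_num), hQ1] at k2
    have k3' := add_right_cancel k2
    rw [hQQ x 5 2 20 (by norm_num), hQQ x 5 6 28 (by norm_num), hQQ y 5 2 20 (by norm_num),
      hQQ y 5 6 28 (by norm_num), ← pow_add, ← pow_add] at k3'
    exact k3'
  -- P_17, Q_17
  have hP17 : P z 17 x = P z 17 y := by
    refine pow17_inj (hK _) (hK _) ?_
    rw [hPP x 5 5 14 (by norm_num), hPP x 5 7 56 (by norm_num), hPP y 5 5 14 (by norm_num),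
      hPP y 5 7 56 (by norm_num), hP5] at k5
    have k3' := add_right_cancel k5
    rw [hPP x 17 4 53 (by norm_num), hPP y 17 4 53 (by norm_num), ← pow_succ', ← pow_succ'] at k3'
    exact k3'
  have hQ17 : Q z 17 x = Q z 17 y := by
    refine pow17_inj (hK _) (hK _) ?_
    rw [hQQ x 5 5 14 (by norm_num), hQQ x 5 7 56 (by norm_num), hQQ y 5 5 14 (by norm_num),
      hQQ y 5 7 56 (by norm_num), hQ5] at k4
    have k3' := add_right_cancel k4
    rw [hQQ x 17 4 53 (by norm_num), hQQ y 17 4 53 (by norm_num), ← pow_succ', ← pow_succ'] at k3'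
    exact k3'
  -- P_15, Q_15
  have hP15 : P z 15 x = P z 15 y := by
    rw [hPP x 5 1 10 (by norm_num), hPP y 5 1 10 (by norm_num), hP5] at k7
    exact add_right_cancel k7
  have hQ15 : Q z 15 x = Q z 15 y := by
    rw [hQQ x 5 1 10 (by norm_num), hQQ y 5 1 10 (by norm_num), hQ5] at k6
    exact add_right_cancel k6
  -- the parities
  have hs : sP x + sQ x = sP y + sQ y := by
    rw [hPP x 17 2 68 (by norm_num), hPP y 17 2 68 (by norm_num), hQQ x 17 2 68 (by norm_num),
      hQQ y 17 2 68 (by norm_num), hP5, hQ5, hP17, hQ17] at ks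
    linear_combination ks
  rw [mem_C]
  refine ⟨?_, ⟨?_, ?_, ?_, ?_⟩, ?_, ?_, ?_, ?_⟩
  · rw [map_sub, map_sub]
    linear_combination hs
  · rw [map_sub, hP1, sub_self]
  · rw [map_sub, hP5, sub_self]
  · rw [map_sub, hP17, sub_self]
  · rw [map_sub, hP15, sub_self]
  · rw [map_sub, hQ1, sub_self]
  · rw [map_sub, hQ5, sub_self]
  · rw [map_sub, hQ17, sub_self]
  · rw [map_sub, hQ15, sub_self]

end Pool.Agent.Helper52.BentC
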