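import Mathlib

set_option autoImplicit false

/-!
The function of helper70 (MP_b38f68, S10912) vanishes on vectors of weight at most three: the
trace identities for `P_k = x^k (+ y^k)`, `Q_k = z^k`, with `x^73 = y^73 = z^73 = 1`.
-/

namespace Pool.Agent.Helper52.BentD

variable {L : Type*} [Field L]

/-- Trace to the prime field, on `{y^512 = y}`. -/
def tr (y : L) : L := ∑ j ∈ Finset.range 9, y ^ (2 ^ j)

/-- The cubic form `F`. -/
def F (X Y : ℕ → L) : L :=
  X 2 * X 8 * X 64 + X 2 * Y 8 * Y 64 + Y 2 * X 8 * Y 64 + Y 2 * Y 8 * X 64 + Y 2 * X 8 * X 64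

/-- The form `E`. -/
def E (P Q : ℕ → L) : L :=
  P 72 * F Q P + P 1 * P 8 * Q 64 + P 1 * P 40 * Q 32 + P 1 * P 56 * Q 16 + P 1 * P 17 * Q 55
  + P 1 * P 68 * Q 4 + P 1 * P 8 * P 56 * Q 8 + P 1 * P 8 * P 63 * Q 1 + P 1 * P 8 * Q 1 * Q 63
  + P 1 * P 8 * Q 8 * Q 56
  + (Q 25 + Q 5 * Q 20) * (P 20 * P 28 + P 16 * P 32)
  + (Q 3 + Q 1 * Q 2) * (P 17 * P 53 + P 14 * P 56)
  + (Q 58 + Q 63 * Q 68) * (P 15 + P 5 * P 10)

lemma E_zero_left (Q : ℕ → L) : E (fun _ => 0) Q = 0 := by
  unfold E F; ring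

lemma E_zero_right (P : ℕ → L) : E P (fun _ => 0) = 0 := by
  unfold E F; ring

lemma tr_zero : tr (0 : L) = 0 := by
  unfold tr
  refine Finset.sum_eq_zero fun j _ => ?_
  rw [zero_pow (by positivity)]

lemma tr_add [CharP L 2] (a b : L) : tr (a + b) = tr a + tr b := by
  unfold tr
  rw [← Finset.sum_add_distrib]
  exact Finset.sum_congr rfl fun j _ => add_pow_char_pow a b 2 j

/-- `Tr 1 = 1` (nine is odd). -/
lemma tr_one [CharP L 2] : tr (1 : L) = 1 := by
  unfold tr
  have h2 : (2 : L) = 0 := CharTwo.two_eq_zero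
  simp only [one_pow, Finset.sum_const, Finset.card_range, nsmul_eq_mul, mul_one]
  norm_num
  linear_combination (4 : L) * h2

/-! ### Formal sums of monomials -/

/-- Exponents `(a, b, c)` of the monomial `x^a y^b z^c`. -/
abbrev Mon := ℕ × ℕ × ℕ

/-- Value of a monomial. -/
def mono (x y z : L) (t : Mon) : L := x ^ t.1 * y ^ t.2.1 * z ^ t.2.2

/-- Value of a formal sum. -/
def S (x y z : L) (l : List Mon) : L := (l.map (mono x y z)).sum

/-- Formal product. -/
def lmul (l m : List Mon) : List Mon :=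
  l.flatMap fun s => m.map fun t => (s.1 + t.1, s.2.1 + t.2.1, s.2.2 + t.2.2)

lemma S_append (x y z : L) (l m : List Mon) : S x y z (l ++ m) = S x y z l + S x y z m := by
  simp [S]

lemma S_lmul (x y z : L) (l m : List Mon) : S x y z (lmul l m) = S x y z l * S x y z m := by
  induction l with
  | nil => simp [S, lmul]
  | cons s l ih =>
    have h1 : lmul (s :: l) m =
        (m.map fun t => (s.1 + t.1, s.2.1 + t.2.1, s.2.2 + t.2.2)) ++ lmul l m := by
      simp [lmul]
    have h2 : S x y z (m.map fun t => (s.1 + t.1, s.2.1 + t.2.1, s.2.2 + t.2.2)) =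
        mono x y z s * S x y z m := by
      unfold S
      rw [← List.sum_map_mul_left, List.map_map]
      congr 1
      refine List.map_congr_left fun t _ => ?_
      simp only [Function.comp, mono, pow_add]
      ring
    rw [h1, S_append, h2, ih]
    have h3 : S x y z (s :: l) = mono x y z s + S x y z l := by simp [S]
    rw [h3]
    ring

/-- Formal version of `F`. -/
def Fl (X Y : ℕ → List Mon) : List Mon :=
  lmul (lmul (X 2) (X 8)) (X 64) ++ lmul (lmul (X 2) (Y 8)) (Y 64) ++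
  lmul (lmul (Y 2) (X 8)) (Y 64) ++ lmul (lmul (Y 2) (Y 8)) (X 64) ++
  lmul (lmul (Y 2) (X 8)) (X 64)

/-- Formal version of `E`. -/
def El (P Q : ℕ → List Mon) : List Mon :=
  lmul (P 72) (Fl Q P) ++ lmul (lmul (P 1) (P 8)) (Q 64) ++ lmul (lmul (P 1) (P 40)) (Q 32) ++
  lmul (lmul (P 1) (P 56)) (Q 16) ++ lmul (lmul (P 1) (P 17)) (Q 55) ++
  lmul (lmul (P 1) (P 68)) (Q 4) ++ lmul (lmul (lmul (P 1) (P 8)) (P 56)) (Q 8) ++
  lmul (lmul (lmul (P 1) (P 8)) (P 63)) (Q 1) ++ lmul (lmul (lmul (P 1) (P 8)) (Q 1)) (Q 63) ++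
  lmul (lmul (lmul (P 1) (P 8)) (Q 8)) (Q 56) ++
  lmul (Q 25 ++ lmul (Q 5) (Q 20)) (lmul (P 20) (P 28) ++ lmul (P 16) (P 32)) ++
  lmul (Q 3 ++ lmul (Q 1) (Q 2)) (lmul (P 17) (P 53) ++ lmul (P 14) (P 56)) ++
  lmul (Q 58 ++ lmul (Q 63) (Q 68)) (P 15 ++ lmul (P 5) (P 10))

lemma S_El (x y z : L) (P Q : ℕ → List Mon) :
    S x y z (El P Q) = E (fun k => S x y z (P k)) (fun k => S x y z (Q k)) := by
  simp only [El, Fl, S_append, S_lmul, E, F]

/-- Scaling of exponents. -/
def scale (k : ℕ) (t : Mon) : Mon := (k * t.1, k * t.2.1, k * t.2.2)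

/-- All nine Frobenius images. -/
def exp9 (l : List Mon) : List Mon := (List.range 9).flatMap fun j => l.map (scale (2 ^ j))

lemma S_pow [CharP L 2] (x y z : L) (l : List Mon) (j : ℕ) :
    S x y z l ^ (2 ^ j) = S x y z (l.map (scale (2 ^ j))) := by
  induction l with
  | nil =>
    simp [S]
  | cons s l ih =>
    have h3 : S x y z (s :: l) = mono x y z s + S x y z l := by simp [S]
    have h4 : S x y z ((s :: l).map (scale (2 ^ j))) =
        mono x y z (scale (2 ^ j) s) + S x y z (l.map (scale (2 ^ j))) := by simp [S]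
    rw [h3, h4, add_pow_char_pow _ _ 2 j, ih]
    congr 1
    simp only [mono, scale, mul_pow, ← pow_mul]
    rw [mul_comm s.1, mul_comm s.2.1, mul_comm s.2.2]

lemma tr_S [CharP L 2] (x y z : L) (l : List Mon) : tr (S x y z l) = S x y z (exp9 l) := by
  unfold tr exp9
  have : ∀ m : ℕ, ∑ j ∈ Finset.range m, S x y z l ^ (2 ^ j) =
      S x y z ((List.range m).flatMap fun j => l.map (scale (2 ^ j))) := by
    intro m
    induction m with
    | zero => simp [S]
    | succ m ih =>
      rw [Finset.sum_range_succ, ih, List.range_succ, List.flatMap_append, S_append, S_pow]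
      simp
  exact this 9

/-! ### Bit masks -/

/-- Code of a monomial of weight `0` mod `73`. -/
def code (t : Mon) : ℕ := 73 * (t.1 % 73) + t.2.1 % 73

/-- Monomial of a code. -/
def mon2 (x y z : L) (i : ℕ) : L := x ^ (i / 73) * y ^ (i % 73) * z ^ ((146 - i / 73 - i % 73) % 73)

lemma mono_eq {x y z : L} (hx : x ^ 73 = 1) (hy : y ^ 73 = 1) (hz : z ^ 73 = 1) (t : Mon)
    (ht : (t.1 + t.2.1 + t.2.2) % 73 = 0) : mono x y z t = mon2 x y z (code t) := by
  obtain ⟨a, b, c⟩ := t
  simp only at ht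
  simp only [mono, mon2, code]
  have e1 : (73 * (a % 73) + b % 73) / 73 = a % 73 := by omega
  have e2 : (73 * (a % 73) + b % 73) % 73 = b % 73 := by omega
  have e3 : (146 - a % 73 - b % 73) % 73 = c % 73 := by omega
  rw [e1, e2, e3, ← pow_eq_pow_mod a hx, ← pow_eq_pow_mod b hy, ← pow_eq_pow_mod c hz]

/-- Value of a mask. -/
def ev (x y z : L) (N : ℕ) : L :=
  ∑ i ∈ Finset.range 5329, if N.testBit i then mon2 x y z i else 0

lemma ev_zero (x y z : L) : ev x y z 0 = 0 := by
  unfold ev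
  refine Finset.sum_eq_zero fun i _ => ?_
  simp

lemma ev_xor [CharP L 2] (x y z : L) (N M : ℕ) :
    ev x y z (N ^^^ M) = ev x y z N + ev x y z M := by
  unfold ev
  rw [← Finset.sum_add_distrib]
  refine Finset.sum_congr rfl fun i _ => ?_
  rw [Nat.testBit_xor]
  have h2 : mon2 x y z i + mon2 x y z i = 0 := CharTwo.add_self_eq_zero _
  cases hN : N.testBit i <;> cases hM : M.testBit i <;> simp [h2]

lemma ev_two_pow (x y z : L) {k : ℕ} (hk : k < 5329) : ev x y z (2 ^ k) = mon2 x y z k := by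
  unfold ev
  rw [Finset.sum_eq_single k]
  · rw [Nat.testBit_two_pow_self, if_pos rfl]
  · intro i _ hi
    rw [Nat.testBit_two_pow_of_ne (Ne.symm hi)]
    simp
  · intro h
    exact absurd (Finset.mem_range.mpr hk) h

/-- Mask of a formal sum. -/
def mask (l : List Mon) : ℕ := l.foldr (fun t acc => 2 ^ (code t) ^^^ acc) 0

/-- All weights are `0` mod `73`. -/
def wok (l : List Mon) : Bool := l.all fun t => (t.1 + t.2.1 + t.2.2) % 73 == 0

lemma S_eq_ev [CharP L 2] {x y z : L} (hx : x ^ 73 = 1) (hy : y ^ 73 = 1) (hz : z ^ 73 = 1)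
    (l : List Mon) (hl : wok l = true) : S x y z l = ev x y z (mask l) := by
  induction l with
  | nil => simp [S, mask, ev_zero]
  | cons t l ih =>
    have hl' : (t.1 + t.2.1 + t.2.2) % 73 = 0 ∧ wok l = true := by
      unfold wok at hl ⊢
      rw [List.all_cons, Bool.and_eq_true] at hl
      exact ⟨by simpa using hl.1, hl.2⟩
    have h3 : S x y z (t :: l) = mono x y z t + S x y z l := by simp [S]
    have h4 : mask (t :: l) = 2 ^ (code t) ^^^ mask l := rfl
    have h5 : code t < 5329 := by unfold code; omega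
    rw [h3, h4, ev_xor, ih hl'.2, ev_two_pow x y z h5, mono_eq hx hy hz t hl'.1]

/-- The check. -/
def check (l : List Mon) : Bool := wok (exp9 l) && (mask (exp9 l) == 0)

lemma tr_S_eq_zero [CharP L 2] {x y z : L} (hx : x ^ 73 = 1) (hy : y ^ 73 = 1) (hz : z ^ 73 = 1)
    (l : List Mon) (hl : check l = true) : tr (S x y z l) = 0 := by
  unfold check at hl
  rw [Bool.and_eq_true] at hl
  rw [tr_S, S_eq_ev hx hy hz _ hl.1]
  have : mask (exp9 l) = 0 := by simpa using hl.2
  rw [this, ev_zero]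

lemma check_two_one :
    check (El (fun k => [(k, 0, 0), (0, k, 0)]) (fun k => [(0, 0, k)]) ++
      El (fun k => [(0, 0, k)]) (fun k => [(k, 0, 0), (0, k, 0)])) = true := by
  decide +kernel

lemma check_one_one :
    check (El (fun k => [(k, 0, 0)]) (fun k => [(0, 0, k)]) ++
      El (fun k => [(0, 0, k)]) (fun k => [(k, 0, 0)])) = true := by
  decide +kernel

lemma S_one (x y z : L) (t : Mon) : S x y z [t] = mono x y z t := by simp [S]

lemma S_two (x y z : L) (s t : Mon) : S x y z [s, t] = mono x y z s + mono x y z t := by simp [S]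

/-- Weight `(2,1)`. -/
theorem van_two_one [CharP L 2] {x y z : L} (hx : x ^ 73 = 1) (hy : y ^ 73 = 1)
    (hz : z ^ 73 = 1) :
    tr (E (fun k => x ^ k + y ^ k) (fun k => z ^ k)) +
    tr (E (fun k => z ^ k) (fun k => x ^ k + y ^ k)) = 0 := by
  have h := tr_S_eq_zero hx hy hz _ check_two_one
  rw [S_append, tr_add, S_El, S_El] at h
  simpa [S_one, S_two, mono] using h

/-- Weight `(1,1)`. -/
theorem van_one_one [CharP L 2] {x z : L} (hx : x ^ 73 = 1) (hz : z ^ 73 = 1) :
    tr (E (fun k => x ^ k) (fun k => z ^ k)) +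
    tr (E (fun k => z ^ k) (fun k => x ^ k)) = 0 := by
  have h := tr_S_eq_zero hx (one_pow 73 : (1 : L) ^ 73 = 1) hz _ check_one_one
  rw [S_append, tr_add, S_El, S_El] at h
  simpa [S_one, S_two, mono] using h

/-- `b(P) = s_P + Tr(P_5 P_68)` vanishes for one point: `Tr(x^5 x^68) = 1`. -/
lemma tr_five [CharP L 2] {x : L} (hx : x ^ 73 = 1) : tr (x ^ 5 * x ^ 68) = 1 := by
  rw [← pow_add, hx, tr_one]

end Pool.Agent.Helper52.BentD
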